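import Mathlib
import Pool.Agent.MP_c09e54_an.Build

set_option autoImplicit false
open MeasureTheory

theorem Pool.Agent.Results.MP_c09e54_an.JordanPair.result :
    ∃ (A : Set ℝ) (m : ℝ), IsCompact A ∧ (frontier A).Countable ∧ (interior A).Nonempty ∧
      0 < m ∧ volume A = volume (Set.Icc (0 : ℝ) m) ∧
      ∀ E₁ E₂ : Set ℝ, volume E₁ = 0 → volume E₂ = 0 →
        ¬ ∃ (n : ℕ) (P : Fin n → Set ℝ) (f : Fin n → ℝ → ℝ),
          (∀ i, Isometry (f i)) ∧
          Pairwise (fun i j => Disjoint (P i) (P j)) ∧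
          Pairwise (fun i j => Disjoint (f i '' P i) (f j '' P j)) ∧
          (⋃ i, P i) = A \ E₁ ∧
          (⋃ i, f i '' P i) = Set.Icc (0 : ℝ) m \ E₂ := by
  have hfin : volume Pool.Agent.JEq.AA ≠ ⊤ := Pool.Agent.JEq.AA_compact.measure_lt_top.ne
  refine ⟨Pool.Agent.JEq.AA, (volume Pool.Agent.JEq.AA).toReal, Pool.Agent.JEq.AA_compact,
    Pool.Agent.JEq.frontier_AA, ?_, Pool.Agent.JEq.vol_AA_pos, ?_, ?_⟩
  · by_contra h
    rw [Set.not_nonempty_iff_eq_empty] at h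
    have h1 := Pool.Agent.JEq.frontier_AA
    rw [Pool.Agent.JEq.AA_compact.isClosed.frontier_eq, h, Set.diff_empty] at h1
    have h2 := Pool.Agent.JEq.vol_AA_pos
    rw [h1.measure_zero] at h2
    simp at h2
  · rw [Real.volume_Icc, sub_zero, ENNReal.ofReal_toReal hfin]
  · rintro E₁ E₂ - hE₂ ⟨n, P, f, hf, hd, -, hP, hc⟩
    refine Pool.Agent.JEq.no_cover E₂ hE₂ n P f hf (fun i x hx => ?_) hd hc.ge
    have : x ∈ ⋃ j, P j := Set.mem_iUnion.2 ⟨i, hx⟩
    rw [hP] at this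
    exact this.1
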